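import Mathlib
import Pool.Agent.Helper11.NiceRec.Final

open MeasureTheory

namespace Pool.Agent.Results.MP_e00215_an.NiceIffErgodicNice

universe u v

/-- `R` is a set of nice recurrence: for every measure preserving system on a probability space
(in the universe `u`), every measurable set `A` with `μ(A) > 0` and every `ε > 0` there is
`n ∈ R` with `μ(A ∩ T⁻ⁿ A) > μ(A)² - ε`. -/
def IsSetOfNiceRecurrence (R : Set ℕ) : Prop :=
  ∀ (X : Type u) [MeasurableSpace X] (μ : Measure X) [IsProbabilityMeasure μ] (T : X → X),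
    MeasurePreserving T μ μ → ∀ A : Set X, MeasurableSet A → 0 < μ A → ∀ ε : ℝ, 0 < ε →
      ∃ n ∈ R, (μ A).toReal ^ 2 - ε < (μ (A ∩ (T^[n]) ⁻¹' A)).toReal

/-- `R` is a set of ergodic nice recurrence: the same condition, required only for ergodic
measure preserving systems. -/
def IsSetOfErgodicNiceRecurrence (R : Set ℕ) : Prop :=
  ∀ (X : Type u) [MeasurableSpace X] (μ : Measure X) [IsProbabilityMeasure μ] (T : X → X),
    Ergodic T μ → ∀ A : Set X, MeasurableSet A → 0 < μ A → ∀ ε : ℝ, 0 < ε →
      ∃ n ∈ R, (μ A).toReal ^ 2 - ε < (μ (A ∩ (T^[n]) ⁻¹' A)).toReal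

lemma iterate_conj {α β : Type*} (e : α ≃ β) (f : α → α) (n : ℕ) (x : β) :
    ((e ∘ f ∘ e.symm)^[n]) x = e (f^[n] (e.symm x)) := by
  induction n with
  | zero => simp
  | succ n ih =>
    rw [Function.iterate_succ_apply', ih, Function.iterate_succ_apply']
    simp

theorem nice_of_ergodicNice (R : Set ℕ) (hE : IsSetOfErgodicNiceRecurrence.{u} R) :
    IsSetOfNiceRecurrence.{v} R := by
  intro X _ μ _ T hT A hA hpos ε hε
  by_contra hcon
  push Not at hcon
  have hposR : 0 < μ.real A := by
    rw [measureReal_def]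
    exact ENNReal.toReal_pos hpos.ne' (measure_ne_top _ _)
  have h0R : 0 ∉ R := by
    intro h0
    have h1 := hcon 0 h0
    simp only [Function.iterate_zero, Set.preimage_id, Set.inter_self] at h1
    have h2 : (μ A).toReal ≤ 1 := measureReal_le_one
    have h3 : 0 ≤ (μ A).toReal := ENNReal.toReal_nonneg
    nlinarith
  obtain ⟨ρ, hρ, hρ0, hR⟩ := Pool.Agent.Helper11.NiceRec.exists_rho hT hA hposR R ε
    (fun n hn => hcon n hn)
  obtain ⟨P, hP, herg, hhalf, δ, hδ, hbound⟩ :=
    Pool.Agent.Helper11.NiceRec.exists_ergodic_system ρ hρ0 R ε hε hR h0R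
  -- transport to the universe u
  let e : (ℕ → Bool) ≃ᵐ ULift.{u} (ℕ → Bool) := MeasurableEquiv.ulift.symm
  have hmp : MeasurePreserving e P (P.map e) := e.measurable.measurePreserving P
  have herg2 : Ergodic (e ∘ Pool.Agent.Helper11.NiceRec.shift ∘ e.symm) (P.map e) :=
    hmp.ergodic_conjugate_iff.2 herg
  have hprob : IsProbabilityMeasure (P.map e) := Measure.isProbabilityMeasure_map
    e.measurable.aemeasurable
  set B : Set (ULift.{u} (ℕ → Bool)) := e.symm ⁻¹' (Pool.Agent.Helper11.NiceRec.cyl {0}) with hB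
  have hBm : MeasurableSet B := e.symm.measurable
    (Pool.Agent.Helper11.NiceRec.measurableSet_cyl {0})
  have hmapB : (P.map e) B = P (Pool.Agent.Helper11.NiceRec.cyl {0}) := by
    rw [Measure.map_apply e.measurable hBm, hB, ← Set.preimage_comp]
    simp
  have hmapn : ∀ n : ℕ, (P.map e) (B ∩
      ((e ∘ Pool.Agent.Helper11.NiceRec.shift ∘ e.symm)^[n]) ⁻¹' B) =
      P (Pool.Agent.Helper11.NiceRec.cyl {0} ∩
        ((Pool.Agent.Helper11.NiceRec.shift)^[n]) ⁻¹' Pool.Agent.Helper11.NiceRec.cyl {0}) := by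
    intro n
    have hm : Measurable ((e ∘ Pool.Agent.Helper11.NiceRec.shift ∘ e.symm)^[n]) :=
      herg2.measurable.iterate n
    rw [Measure.map_apply e.measurable (hBm.inter (hm hBm))]
    congr 1
    ext x
    have h1 := iterate_conj e.toEquiv Pool.Agent.Helper11.NiceRec.shift n (e x)
    have h2 : ((e ∘ Pool.Agent.Helper11.NiceRec.shift ∘ e.symm)^[n]) (e x) =
        e ((Pool.Agent.Helper11.NiceRec.shift)^[n] x) := by
      refine h1.trans ?_
      simp
    simp only [Set.mem_preimage, Set.mem_inter_iff, h2, hB, MeasurableEquiv.symm_apply_apply]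
  have hBpos : 0 < (P.map e) B := by
    rw [hmapB]
    by_contra h
    have h0 : P (Pool.Agent.Helper11.NiceRec.cyl {0}) = 0 := by simpa using h
    rw [measureReal_def, h0] at hhalf
    norm_num at hhalf
  obtain ⟨n, hn, hlt⟩ := hE (ULift.{u} (ℕ → Bool)) (P.map e) _ herg2 B hBm hBpos δ hδ
  rw [hmapn, hmapB] at hlt
  have hb := hbound n hn
  rw [measureReal_def, measureReal_def] at hb
  linarith

/-- **Ergodic nice recurrence is the same as nice recurrence.** A set of natural numbers is a set
of ergodic nice recurrence if and only if it is a set of nice recurrence. -/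
theorem result (R : Set ℕ) :
    IsSetOfErgodicNiceRecurrence.{u} R ↔ IsSetOfNiceRecurrence.{v} R := by
  have key : ∀ R : Set ℕ, IsSetOfNiceRecurrence.{v} R → IsSetOfErgodicNiceRecurrence.{v} R :=
    fun R h X _ μ _ T hT => h X μ T hT.toMeasurePreserving
  refine ⟨nice_of_ergodicNice R, fun h => ?_⟩
  have h2 : IsSetOfNiceRecurrence.{u} R := nice_of_ergodicNice.{v, u} R (key R h)
  exact fun X _ μ _ T hT => h2 X μ T hT.toMeasurePreserving

end Pool.Agent.Results.MP_e00215_an.NiceIffErgodicNice
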